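import Pool.Agent.D0H99.OD.Stm3

/-! Project OD (helper99), part 3, module NG (helper65). -/

set_option autoImplicit false

namespace Pool.Agent.D0H65.OD

open Finset Module
open Pool.Agent.D0H99.RM (V X sy cst)
open Pool.Agent.D0H99.OD

section lin

variable {J : Type} [Fintype J]

/-- the pairing -/
noncomputable def Bf (J : Type) [Fintype J] : ((J → ZMod 2) × (J → ZMod 2)) →ₗ[ZMod 2]
    ((J → ZMod 2) × (J → ZMod 2)) →ₗ[ZMod 2] ZMod 2 :=
  LinearMap.mk₂ (ZMod 2) (fun x y => ∑ j, (x.1 j * y.2 j + y.1 j * x.2 j))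
    (by intro a b c; rw [← Finset.sum_add_distrib]
        exact Finset.sum_congr rfl fun j _ => by simp only [Prod.fst_add, Prod.snd_add, Pi.add_apply]; ring)
    (by intro c a b; rw [smul_eq_mul, Finset.mul_sum]
        exact Finset.sum_congr rfl fun j _ => by
          simp only [Prod.smul_fst, Prod.smul_snd, Pi.smul_apply, smul_eq_mul]; ring)
    (by intro a b c; rw [← Finset.sum_add_distrib]
        exact Finset.sum_congr rfl fun j _ => by simp only [Prod.fst_add, Prod.snd_add, Pi.add_apply]; ring)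
    (by intro c a b; rw [smul_eq_mul, Finset.mul_sum]
        exact Finset.sum_congr rfl fun j _ => by
          simp only [Prod.smul_fst, Prod.smul_snd, Pi.smul_apply, smul_eq_mul]; ring)

theorem Bf_apply (x y : (J → ZMod 2) × (J → ZMod 2)) :
    Bf J x y = ∑ j, (x.1 j * y.2 j + y.1 j * x.2 j) := rfl

/-- the orthogonal complement -/
noncomputable def Oc (U : Submodule (ZMod 2) ((J → ZMod 2) × (J → ZMod 2))) :
    Submodule (ZMod 2) ((J → ZMod 2) × (J → ZMod 2)) :=
  LinearMap.ker ((Bf J).compl₁₂ (LinearMap.id) U.subtype)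

theorem mem_Oc (U : Submodule (ZMod 2) ((J → ZMod 2) × (J → ZMod 2)))
    (z : (J → ZMod 2) × (J → ZMod 2)) : z ∈ Oc U ↔ ∀ x ∈ U, Bf J z x = 0 := by
  unfold Oc
  rw [LinearMap.mem_ker]
  constructor
  · intro h x hx
    exact LinearMap.congr_fun h ⟨x, hx⟩
  · intro h
    ext x
    exact h x.1 x.2

theorem Bf_inj : LinearMap.ker (Bf J) = ⊥ := by
  classical
  rw [LinearMap.ker_eq_bot']
  intro x hx
  apply Prod.ext
  · funext j
    have h1 := LinearMap.congr_fun hx ((0 : J → ZMod 2), Pi.single j (1 : ZMod 2))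
    rw [Bf_apply] at h1
    simpa [Pi.single_apply] using h1
  · funext j
    have h1 := LinearMap.congr_fun hx (Pi.single j (1 : ZMod 2), (0 : J → ZMod 2))
    rw [Bf_apply] at h1
    simpa [Pi.single_apply] using h1

theorem Oc_finrank (U : Submodule (ZMod 2) ((J → ZMod 2) × (J → ZMod 2))) :
    finrank (ZMod 2) (Oc U) + finrank (ZMod 2) U = 2 * Fintype.card J := by
  have hE : finrank (ZMod 2) ((J → ZMod 2) × (J → ZMod 2)) = 2 * Fintype.card J := by
    rw [Module.finrank_prod, Module.finrank_fintype_fun_eq_card]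
    ring
  have hsurj : Function.Surjective ((Bf J).compl₁₂ (LinearMap.id) U.subtype) := by
    intro f
    obtain ⟨g, hg⟩ := LinearMap.exists_extend f
    have h1 : Function.Surjective (Bf J) := by
      have h2 : Function.Injective (Bf J) := LinearMap.ker_eq_bot.mp Bf_inj
      refine (LinearMap.injective_iff_surjective_of_finrank_eq_finrank ?_).mp h2
      exact (Subspace.dual_finrank_eq).symm
    obtain ⟨z, hz⟩ := h1 g
    refine ⟨z, ?_⟩
    ext x
    change Bf J z (U.subtype x) = f x
    rw [hz, ← hg]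
    rfl
  have h1 := LinearMap.finrank_range_add_finrank_ker ((Bf J).compl₁₂ (LinearMap.id) U.subtype)
  rw [LinearMap.range_eq_top.mpr hsurj, finrank_top, hE] at h1
  have h2 : finrank (ZMod 2) (U →ₗ[ZMod 2] ZMod 2) = finrank (ZMod 2) U := Subspace.dual_finrank_eq
  rw [h2] at h1
  unfold Oc
  omega

/-- totally isotropic subspaces -/
theorem lemA (U : Submodule (ZMod 2) ((J → ZMod 2) × (J → ZMod 2)))
    (hU : ∀ x ∈ U, ∀ y ∈ U, Bf J x y = 0) : Nat.card U ≤ 2 ^ Fintype.card J ∧
    (Nat.card U = 2 ^ Fintype.card J → ∀ z, (∀ x ∈ U, Bf J z x = 0) → z ∈ U) := by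
  have h1 := Oc_finrank U
  have h2 : U ≤ Oc U := fun x hx => (mem_Oc U x).mpr fun y hy => hU x hx y hy
  have h3 := Submodule.finrank_mono h2
  have h4 : Nat.card U = 2 ^ finrank (ZMod 2) U := by
    rw [Module.natCard_eq_pow_finrank (K := ZMod 2), Nat.card_zmod]
  refine ⟨?_, ?_⟩
  · rw [h4]
    exact Nat.pow_le_pow_right (by norm_num) (by omega)
  · intro h5 z hz
    rw [h4] at h5
    have h6 := Nat.pow_right_injective (le_refl 2) h5
    have h7 : U = Oc U := Submodule.eq_of_le_of_finrank_eq h2 (by omega)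
    rw [h7]
    exact (mem_Oc U z).mpr hz

/-- proper subspaces -/
theorem lemB [DecidableEq J] (P : Submodule (ZMod 2) (J → ZMod 2)) (hP : P ≠ ⊤) :
    ∃ t : J → ZMod 2, t ≠ 0 ∧ ∀ a ∈ P, ∑ j, a j * t j = 0 := by
  obtain ⟨f, hf, hf2⟩ := Submodule.exists_le_ker_of_lt_top P (lt_top_iff_ne_top.mpr hP)
  have h1 : ∀ a : J → ZMod 2, f a = ∑ j, a j * f (Pi.single j 1) := by
    intro a
    conv_lhs => rw [← Finset.univ_sum_single a, map_sum]
    refine Finset.sum_congr rfl fun j _ => ?_
    have h2 : (Pi.single j (a j) : J → ZMod 2) = a j • Pi.single j 1 := by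
      rw [← Pi.single_smul, smul_eq_mul, mul_one]
    rw [h2, map_smul, smul_eq_mul]
  refine ⟨fun j => f (Pi.single j 1), ?_, ?_⟩
  · intro h
    apply hf
    ext j
    have h3 := congrFun h j
    simpa using h3
  · intro a ha
    rw [← h1]
    exact hf2 ha

end lin

section main

variable {C : Type} [Fintype C] {k r : ℕ}

/-- the coordinates -/
def fl (a : Wk C k) : C × Fin k × Fin 2 → ZMod 2 := fun p => a p.1 p.2.1 p.2.2

omit [Fintype C] in
theorem fl_inj : Function.Injective (fl : Wk C k → C × Fin k × Fin 2 → ZMod 2) := by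
  intro a b h
  funext i j s
  exact congrFun h (i, j, s)

theorem fl_sum (f : C × Fin k × Fin 2 → ZMod 2) :
    ∑ p, f p = ∑ i, ∑ j, ∑ s, f (i, j, s) := by
  rw [Fintype.sum_prod_type]
  refine Finset.sum_congr rfl fun i _ => ?_
  rw [Fintype.sum_prod_type]

theorem card_J : Fintype.card (C × Fin k × Fin 2) = 2 * (k * Fintype.card C) := by
  rw [Fintype.card_prod, Fintype.card_prod, Fintype.card_fin, Fintype.card_fin]
  ring

theorem key (a c : Fin r → Wk C k) (ho : Orth a c)
    (hli : ∀ i, LinearIndependent (ZMod 2) fun (j : Fin k) (x : Fin r) => a x i j)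
    (hns : ¬ Function.Surjective a) :
    (Set.range fun x => (a x, c x)).ncard < 4 ^ (k * Fintype.card C) := by
  classical
  rcases Nat.eq_zero_or_pos r with hr | hr
  · subst hr
    have h1 : (Set.range fun x : Fin 0 => (a x, c x)) = ∅ := Set.range_eq_empty _
    rw [h1, Set.ncard_empty]
    positivity
  by_contra hcon
  push Not at hcon
  have hN : (4 : ℕ) ^ (k * Fintype.card C) = 2 ^ Fintype.card (C × Fin k × Fin 2) := by
    rw [card_J, show (4 : ℕ) = 2 ^ 2 from rfl, ← pow_mul]
  rw [hN] at hcon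
  set x₀ : Fin r := ⟨0, hr⟩
  let g : Fin r → ((C × Fin k × Fin 2 → ZMod 2) × (C × Fin k × Fin 2 → ZMod 2)) :=
    fun x => (fl (a x) - fl (a x₀), fl (c x) - fl (c x₀))
  let U : Submodule (ZMod 2) ((C × Fin k × Fin 2 → ZMod 2) × (C × Fin k × Fin 2 → ZMod 2)) :=
    Submodule.span (ZMod 2) (Set.range g)
  have hadd : ∀ t : ZMod 2, t + t = 0 := by decide
  have hQ : ∀ x y, ∑ p, (fl (a x) p - fl (a y) p) * (fl (c x) p - fl (c y) p) = 0 := by
    intro x y
    rw [fl_sum]
    exact ho.2 x y
  have hgg : ∀ x y, Bf _ (g x) (g y) = 0 := by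
    intro x y
    rw [Bf_apply]
    have h1 := hQ x y
    have h2 := hQ x x₀
    have h3 := hQ y x₀
    have h4 : ∑ p, ((g x).1 p * (g y).2 p + (g y).1 p * (g x).2 p) =
        ∑ p, (fl (a x) p - fl (a x₀) p) * (fl (c x) p - fl (c x₀) p) +
        ∑ p, (fl (a y) p - fl (a x₀) p) * (fl (c y) p - fl (c x₀) p) -
        ∑ p, (fl (a x) p - fl (a y) p) * (fl (c x) p - fl (c y) p) := by
      rw [← Finset.sum_add_distrib, ← Finset.sum_sub_distrib]
      refine Finset.sum_congr rfl fun p _ => ?_
      change (fl (a x) p - fl (a x₀) p) * (fl (c y) p - fl (c x₀) p) +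
        (fl (a y) p - fl (a x₀) p) * (fl (c x) p - fl (c x₀) p) = _
      ring
    rw [h4, h1, h2, h3]
    simp
  have hiso : ∀ x ∈ U, ∀ y ∈ U, Bf _ x y = 0 := by
    have h1 : ∀ x, ∀ y ∈ U, Bf _ (g x) y = 0 := by
      intro x y hy
      refine Submodule.span_induction ?_ ?_ ?_ ?_ hy
      · rintro _ ⟨y', rfl⟩
        exact hgg x y'
      · exact map_zero _
      · intro u w _ _ hu hw
        rw [map_add, hu, hw, add_zero]
      · intro t u _ hu
        rw [map_smul, hu, smul_zero]
    intro x hx y hy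
    refine Submodule.span_induction ?_ ?_ ?_ ?_ hx
    · rintro _ ⟨x', rfl⟩
      exact h1 x' y hy
    · rw [map_zero]; rfl
    · intro u w _ _ hu hw
      rw [map_add, LinearMap.add_apply, hu, hw, add_zero]
    · intro t u _ hu
      rw [map_smul, LinearMap.smul_apply, hu, smul_zero]
  obtain ⟨hA1, hA2⟩ := lemA U hiso
  -- the range of g has the same number of elements
  have hcard : (Set.range g).ncard = (Set.range fun x => (a x, c x)).ncard := by
    let ψ : Wk C k × Wk C k → ((C × Fin k × Fin 2 → ZMod 2) × (C × Fin k × Fin 2 → ZMod 2)) :=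
      fun w => (fl w.1 - fl (a x₀), fl w.2 - fl (c x₀))
    have hψ : Function.Injective ψ := by
      intro w w' h
      have e1 := congrArg Prod.fst h
      have e2 := congrArg Prod.snd h
      exact Prod.ext (fl_inj (sub_left_injective e1)) (fl_inj (sub_left_injective e2))
    have h1 : Set.range g = ψ '' (Set.range fun x => (a x, c x)) := by
      rw [← Set.range_comp]
      rfl
    rw [h1, Set.ncard_image_of_injective _ hψ]
  have hsub : Set.range g ⊆ (U : Set ((C × Fin k × Fin 2 → ZMod 2) × (C × Fin k × Fin 2 → ZMod 2))) := Submodule.subset_span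
  have hUc : (U : Set ((C × Fin k × Fin 2 → ZMod 2) × (C × Fin k × Fin 2 → ZMod 2))).ncard = Nat.card U := by
    rw [← Nat.card_coe_set_eq]
    rfl
  have heq : Set.range g = (U : Set ((C × Fin k × Fin 2 → ZMod 2) × (C × Fin k × Fin 2 → ZMod 2))) := by
    apply Set.eq_of_subset_of_ncard_le hsub _ (Set.toFinite _)
    rw [hUc, hcard]
    exact hA1.trans hcon
  have hUeq : Nat.card U = 2 ^ Fintype.card (C × Fin k × Fin 2) := by
    apply le_antisymm hA1
    rw [← hUc, ← heq, hcard]
    exact hcon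
  have hmem : ∀ z ∈ U, ∃ x, g x = z := by
    intro z hz
    have h1 : z ∈ Set.range g := by
      rw [heq]
      exact hz
    exact h1
  -- the projection is proper
  have hP : U.map (LinearMap.fst (ZMod 2) (C × Fin k × Fin 2 → ZMod 2)
      (C × Fin k × Fin 2 → ZMod 2)) ≠ ⊤ := by
    intro h
    apply hns
    intro w
    have h1 : fl w - fl (a x₀) ∈ U.map (LinearMap.fst (ZMod 2) (C × Fin k × Fin 2 → ZMod 2)
      (C × Fin k × Fin 2 → ZMod 2)) := by
      rw [h]; exact Submodule.mem_top
    obtain ⟨z, hz, hz2⟩ := Submodule.mem_map.mp h1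
    obtain ⟨x, rfl⟩ := hmem z hz
    exact ⟨x, fl_inj (sub_left_injective hz2)⟩
  obtain ⟨t, ht0, ht⟩ := lemB _ hP
  have htU : ∀ τ : C × Fin k × Fin 2 → ZMod 2, (∀ x, ∑ p, (g x).1 p * τ p = 0) →
      ((0 : C × Fin k × Fin 2 → ZMod 2), τ) ∈ U := by
    intro τ hτ
    apply hA2 hUeq
    intro z hz
    obtain ⟨x, rfl⟩ := hmem z hz
    rw [Bf_apply]
    rw [← hτ x]
    refine Finset.sum_congr rfl fun p _ => ?_
    simp
  -- the shift
  have hshift : ∀ τ : C × Fin k × Fin 2 → ZMod 2,
      ((0 : C × Fin k × Fin 2 → ZMod 2), τ) ∈ U → ∀ x i s,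
      ∑ j, a x i j s * τ (i, j, s + 1) = 0 := by
    intro τ hτ x i s
    obtain ⟨y, hy⟩ := hmem _ (U.add_mem (Submodule.subset_span ⟨x, rfl⟩ : g x ∈ U) hτ)
    have e1 : fl (a y) - fl (a x₀) = fl (a x) - fl (a x₀) := by
      have := congrArg Prod.fst hy
      simpa [g] using this
    have e2 : fl (c y) - fl (c x₀) = fl (c x) - fl (c x₀) + τ := congrArg Prod.snd hy
    have e3 : a y = a x := fl_inj (sub_left_injective e1)
    have e4 : ∀ j, c y i j (s + 1) = c x i j (s + 1) + τ (i, j, s + 1) := by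
      intro j
      have h1 := congrFun e2 (i, j, s + 1)
      simp only [Pi.sub_apply, Pi.add_apply, fl] at h1
      linear_combination h1
    have h1 := ho.1 x i s
    have h2 := ho.1 y i s
    rw [e3] at h2
    simp only [e4, mul_add, Finset.sum_add_distrib] at h2
    rw [h1, zero_add] at h2
    exact h2
  have h0 := hshift t (htU t fun x => ht _ (Submodule.mem_map.mpr
    ⟨g x, Submodule.subset_span ⟨x, rfl⟩, rfl⟩))
  obtain ⟨⟨i, j₀, s'⟩, hne⟩ := Function.ne_iff.mp ht0
  have hss : ∀ b : Fin 2, b + 1 + 1 = b := by decide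
  have h1 : ∀ x, ∑ j, a x i j (s' + 1) * t (i, j, s') = 0 := by
    intro x
    have := h0 x i (s' + 1)
    rw [hss] at this
    exact this
  let t' : C × Fin k × Fin 2 → ZMod 2 := fun p =>
    if p.1 = i ∧ p.2.2 = s' + 1 then t (i, p.2.1, s') else 0
  have ht'a : ∀ w : C × Fin k × Fin 2 → ZMod 2, ∑ p, w p * t' p =
      ∑ j, w (i, j, s' + 1) * t (i, j, s') := by
    intro w
    rw [fl_sum, Finset.sum_eq_single i]
    · refine Finset.sum_congr rfl fun j _ => ?_
      rw [Finset.sum_eq_single (s' + 1)]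
      · simp [t']
      · intro s _ hs
        simp [t', hs]
      · intro h
        exact absurd (Finset.mem_univ _) h
    · intro i' _ hi
      apply Finset.sum_eq_zero
      intro j _
      apply Finset.sum_eq_zero
      intro s _
      simp [t', hi]
    · intro h
      exact absurd (Finset.mem_univ _) h
  have ht' : ((0 : C × Fin k × Fin 2 → ZMod 2), t') ∈ U := by
    apply htU
    intro x
    rw [ht'a]
    change ∑ j, (a x i j (s' + 1) - a x₀ i j (s' + 1)) * t (i, j, s') = 0
    simp only [sub_mul, Finset.sum_sub_distrib]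
    rw [h1, h1, sub_zero]
  have h2 : ∀ x, ∑ j, a x i j s' * t (i, j, s') = 0 := by
    intro x
    have h3 := hshift t' ht' x i s'
    have h4 : ∀ j, t' (i, j, s' + 1) = t (i, j, s') := by
      intro j
      simp [t']
    simp only [h4] at h3
    exact h3
  have h3 : ∀ x (b : Fin 2), ∑ j, a x i j b * t (i, j, s') = 0 := by
    intro x b
    have h4 : ∀ u v : Fin 2, u = v ∨ u = v + 1 := by decide
    rcases h4 b s' with rfl | rfl
    · exact h2 x
    · exact h1 x
  have h4 := Fintype.linearIndependent_iff.mp (hli i) (fun j => t (i, j, s')) (by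
    funext x b
    rw [Finset.sum_apply, Finset.sum_apply]
    refine Eq.trans ?_ (h3 x b)
    refine Finset.sum_congr rfl fun j _ => ?_
    simp only [Pi.smul_apply, smul_eq_mul]
    ring)
  exact hne (h4 j₀)

theorem t_NG : S_NG := by
  intro C _ k r
  classical
  set N : ℕ := 4 ^ (k * Fintype.card C) with hN
  have hW : Fintype.card (Wk C k) = N := by
    rw [hN, Fintype.card_fun, Fintype.card_fun, Fintype.card_fun, ZMod.card, Fintype.card_fin,
      Fintype.card_fin, pow_mul]
    norm_num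
  have hWW : Fintype.card (Wk C k × Wk C k) = 16 ^ (k * Fintype.card C) := by
    rw [Fintype.card_prod, hW, hN, ← mul_pow]
    norm_num
  let T := {v : (Fin r → Wk C k) × (Fin r → Wk C k) | Orth v.1 v.2 ∧
    (∀ i, LinearIndependent (ZMod 2) fun (j : Fin k) (x : Fin r) => v.1 x i j) ∧
    ¬ Function.Surjective v.1}
  change T.ncard ≤ 2 ^ (16 ^ (k * Fintype.card C)) * (N - 1) ^ r
  let 𝒮 : Finset (Finset (Wk C k × Wk C k)) := Finset.univ.filter fun I => I.card ≤ N - 1
  let φ : (Fin r → Wk C k) × (Fin r → Wk C k) → (Fin r → Wk C k × Wk C k) :=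
    fun v x => (v.1 x, v.2 x)
  have hφ : Function.Injective φ := by
    intro v w h
    apply Prod.ext
    · funext x
      exact congrArg Prod.fst (congrFun h x)
    · funext x
      exact congrArg Prod.snd (congrFun h x)
  have h1 : (φ '' T) ⊆ ((𝒮.biUnion fun I => Fintype.piFinset fun _ : Fin r => I : Finset _) :
      Set (Fin r → Wk C k × Wk C k)) := by
    rintro _ ⟨v, ⟨h1, h2, h3⟩, rfl⟩
    have h4 := key v.1 v.2 h1 h2 h3
    rw [Finset.mem_coe, Finset.mem_biUnion]
    refine ⟨Finset.univ.image (φ v), ?_, ?_⟩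
    · rw [Finset.mem_filter]
      refine ⟨Finset.mem_univ _, ?_⟩
      have h5 : (Finset.univ.image (φ v)).card = (Set.range fun x => (v.1 x, v.2 x)).ncard := by
        rw [← Set.ncard_coe_finset, Finset.coe_image, Finset.coe_univ, Set.image_univ]
      rw [h5]
      exact Nat.le_sub_one_of_lt h4
    · rw [Fintype.mem_piFinset]
      intro x
      exact Finset.mem_image_of_mem _ (Finset.mem_univ _)
  calc T.ncard = (φ '' T).ncard := (Set.ncard_image_of_injective _ hφ).symm
    _ ≤ ((𝒮.biUnion fun I => Fintype.piFinset fun _ : Fin r => I : Finset _) :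
      Set (Fin r → Wk C k × Wk C k)).ncard := Set.ncard_le_ncard h1 (Finset.finite_toSet _)
    _ = (𝒮.biUnion fun I => Fintype.piFinset fun _ : Fin r => I).card := Set.ncard_coe_finset _
    _ ≤ ∑ I ∈ 𝒮, (Fintype.piFinset fun _ : Fin r => I).card := Finset.card_biUnion_le
    _ ≤ ∑ I ∈ 𝒮, (N - 1) ^ r := by
        refine Finset.sum_le_sum fun I hI => ?_
        rw [Fintype.card_piFinset, Finset.prod_const, Finset.card_univ, Fintype.card_fin]
        exact Nat.pow_le_pow_left (Finset.mem_filter.mp hI).2 r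
    _ = 𝒮.card * (N - 1) ^ r := by rw [Finset.sum_const, smul_eq_mul]
    _ ≤ 2 ^ (16 ^ (k * Fintype.card C)) * (N - 1) ^ r := by
        apply Nat.mul_le_mul_right
        refine (Finset.card_le_univ _).trans (le_of_eq ?_)
        rw [Fintype.card_finset, hWW]

end main

end Pool.Agent.D0H65.OD
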