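import Pool.Agent.D0H99.OD.Stm3
import Pool.Agent.D0H52.OD.Per

/-! Project OD (helper99), part 3, modules SG and IN (helper65). -/

set_option autoImplicit false

namespace Pool.Agent.D0H65.OD

open Finset Module
open Pool.Agent.D0H99.RM (V X sy cst)
open Pool.Agent.D0H99.OD

theorem t_SG : S_SG := by
  intro k r δ κ lam B a x s ha
  classical
  set φ : (Fin r → V 2 2) → (Fin r → V 2 2) :=
    fun p => (Pool.Agent.D0H52.RM.flip x s (B, p)).2 with hφ
  have hφφ : ∀ p, φ (φ p) = p := by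
    intro p
    funext y t
    change (p y t + if y = x ∧ t = s then 1 else 0) + (if y = x ∧ t = s then 1 else 0) = p y t
    rw [add_assoc, CharTwo.add_self_eq_zero, add_zero]
  have hpr : ∀ p, ∑ y, ∑ t, φ p y t = ∑ y, ∑ t, p y t + 1 := fun p =>
    Pool.Agent.D0H52.RM.pr_flip x s (B, p)
  have hsol : ∀ p j, PSol δ κ lam (sy B) (φ p) (a j) ↔ PSol δ κ lam (sy B) p (a j) := fun p j =>
    Pool.Agent.D0H52.OD.psol_flip δ κ lam x s (B, p) (a j) (ha j)
  have h1 : ∀ c : ZMod 2, c + 1 ≠ 0 ↔ c = 0 := by decide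
  have h2 : ∀ c : ZMod 2, c + 1 = 0 ↔ c ≠ 0 := by decide
  have himg : φ '' {p : Fin r → V 2 2 | ∑ y, ∑ t, p y t = 0 ∧ ∀ j, PSol δ κ lam (sy B) p (a j)} =
      {p : Fin r → V 2 2 | ∑ y, ∑ t, p y t ≠ 0 ∧ ∀ j, PSol δ κ lam (sy B) p (a j)} := by
    ext p
    constructor
    · rintro ⟨p', ⟨e1, e2⟩, rfl⟩
      refine ⟨?_, fun j => (hsol p' j).mpr (e2 j)⟩
      rw [hpr]
      exact (h1 _).mpr e1
    · rintro ⟨e1, e2⟩
      refine ⟨φ p, ⟨?_, fun j => (hsol p j).mpr (e2 j)⟩, hφφ p⟩
      rw [hpr]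
      exact (h2 _).mpr e1
  rw [← himg, Set.ncard_image_of_injective _ (Function.LeftInverse.injective hφφ)]

/-- the space of solutions -/
noncomputable def SolSp {r : ℕ} (δ : Fin r → ZMod 2) (κ lam : ZMod 2) (x : X 2 2 r) :
    Submodule (ZMod 2) (Fin r → V 2 2) where
  carrier := {a | PSol δ κ lam (sy x.1) x.2 a}
  zero_mem' := by
    change PSol δ κ lam (sy x.1) x.2 0
    rw [Pool.Agent.D0H52.OD.psol_iff]
    exact Matrix.mulVec_zero _
  add_mem' := by
    intro a b ha hb
    change PSol δ κ lam (sy x.1) x.2 (a + b)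
    change PSol δ κ lam (sy x.1) x.2 a at ha
    change PSol δ κ lam (sy x.1) x.2 b at hb
    rw [Pool.Agent.D0H52.OD.psol_iff] at ha hb ⊢
    have h1 := Matrix.mulVec_add (Pool.Agent.D0H52.OD.PM δ κ lam x)
      (fun p : Fin r × Fin 2 => a p.1 p.2) (fun p : Fin r × Fin 2 => b p.1 p.2)
    rw [ha, hb, add_zero] at h1
    exact h1
  smul_mem' := by
    intro c a ha
    change PSol δ κ lam (sy x.1) x.2 (c • a)
    change PSol δ κ lam (sy x.1) x.2 a at ha
    rw [Pool.Agent.D0H52.OD.psol_iff] at ha ⊢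
    have h1 := Matrix.mulVec_smul (Pool.Agent.D0H52.OD.PM δ κ lam x) c
      (fun p : Fin r × Fin 2 => a p.1 p.2)
    rw [ha, smul_zero] at h1
    exact h1

theorem t_IN : S_IN := by
  intro k r δ κ lam x
  classical
  set W := SolSp δ κ lam x with hW
  have hmem : ∀ a, a ∈ W ↔ PSol δ κ lam (sy x.1) x.2 a := fun a => Iff.rfl
  have hn : nsolP δ κ lam x = 2 ^ finrank (ZMod 2) W := by
    have h1 : nsolP δ κ lam x = Nat.card W := by
      unfold nsolP
      rw [← Nat.card_coe_set_eq]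
      rfl
    rw [h1, Module.natCard_eq_pow_finrank (K := ZMod 2), Nat.card_zmod]
  have h2 : {a : Fin k → Fin r → V 2 2 | LinearIndependent (ZMod 2) a ∧
      ∀ j, PSol δ κ lam (sy x.1) x.2 (a j)}.ncard =
      Nat.card { s : Fin k → W // LinearIndependent (ZMod 2) s } := by
    rw [← Nat.card_coe_set_eq]
    refine Nat.card_congr
      { toFun := fun a => ⟨fun j => ⟨a.1 j, a.2.2 j⟩, ?_⟩
        invFun := fun s => ⟨fun j => (s.1 j : Fin r → V 2 2), ?_, fun j => (s.1 j).2⟩
        left_inv := fun a => rfl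
        right_inv := fun s => rfl }
    · exact LinearIndependent.of_comp W.subtype a.2.1
    · exact s.2.map' W.subtype (Submodule.ker_subtype W)
  rw [h2]
  unfold fm
  rw [hn]
  by_cases hk : k ≤ finrank (ZMod 2) W
  · rw [card_linearIndependent hk, Finset.prod_range]
    simp
  · push Not at hk
    have h3 : IsEmpty { s : Fin k → W // LinearIndependent (ZMod 2) s } := by
      refine ⟨fun s => ?_⟩
      have h4 := s.2.fintype_card_le_finrank
      rw [Fintype.card_fin] at h4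
      omega
    rw [Nat.card_of_isEmpty]
    symm
    exact Finset.prod_eq_zero (Finset.mem_range.mpr hk) (Nat.sub_self _)

end Pool.Agent.D0H65.OD
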